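import Pool.Agent.H91.RF.TargetsA
import Pool.Agent.H35.RD.Base

/-!
# MP_609556_an, full answer: module TE1 (`f > 0` near `1`)
-/

open MeasureTheory Set Filter Topology Metric
open Pool.Agent.H29.TF (hk P hk_pos hk_nonneg integrable_hk integrable_hk_mul P_eq_conv P_const
  P_sub P_nonneg continuous_hk)
open Pool.Agent.H91.RD Pool.Agent.H91.RF Pool.Agent.H35.RD

namespace Pool.Agent.H65.RF

variable {N : ℕ}

/-- the mass of the heat kernel in a ball is positive -/
theorem hk_ball_pos (a : E N) {ρ : ℝ} (hρ : 0 < ρ) : 0 < ∫ y in ball a ρ, hk 1 y := by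
  rw [integral_pos_iff_support_of_nonneg_ae]
  · have h1 : Function.support (fun y : E N => hk 1 y) = univ := by
      ext y
      simp [(hk_pos one_pos y).ne']
    rw [h1, Measure.restrict_apply_univ]
    exact measure_ball_pos _ _ hρ
  · exact Eventually.of_forall fun y => hk_nonneg zero_le_one y
  · exact (integrable_hk one_pos).integrableOn

/-- lower bound of the heat semigroup at time `1` applied to `1 - 𝟙_{B_ρ}` -/
theorem P_out {ρ : ℝ} (hN : 1 ≤ N) (hρ : 0 < ρ) : ∃ c0 > 0, ∀ x : E N,
    c0 ≤ P 1 (fun y => 1 - chi (ball (0 : E N) ρ) y) x := by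
  obtain ⟨e, he⟩ := exists_unit hN
  refine ⟨min (∫ y in ball ((2 * ρ) • e) ρ, hk 1 y) (∫ y in ball (-((2 * ρ) • e)) ρ, hk 1 y),
    lt_min (hk_ball_pos _ hρ) (hk_ball_pos _ hρ), fun x => ?_⟩
  rw [P_eq_conv]
  have hmeas : Measurable (chi (ball (0 : E N) ρ)) :=
    measurable_const.indicator measurableSet_ball
  have hg0 : ∀ y : E N, 0 ≤ 1 - chi (ball (0 : E N) ρ) y := fun y => by
    linarith [chi_le_one (ball (0 : E N) ρ) y]
  have hg1 : ∀ y : E N, |1 - chi (ball (0 : E N) ρ) y| ≤ 1 := fun y => by
    rw [abs_of_nonneg (hg0 y)]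
    linarith [chi_nonneg (ball (0 : E N) ρ) y]
  have hint : Integrable fun y : E N => hk 1 y * (1 - chi (ball (0 : E N) ρ) (x - y)) := by
    refine (integrable_hk one_pos).mul_bdd
      ((measurable_const.sub (hmeas.comp (by fun_prop))).aestronglyMeasurable)
      (Eventually.of_forall fun y => hg1 (x - y))
  have key : ∀ a : E N, (∀ y ∈ ball a ρ, ρ ≤ ‖x - y‖) →
      ∫ y in ball a ρ, hk 1 y ≤ ∫ y : E N, hk 1 y * (1 - chi (ball (0 : E N) ρ) (x - y)) := by
    intro a ha
    calc ∫ y in ball a ρ, hk 1 y =
        ∫ y in ball a ρ, hk 1 y * (1 - chi (ball (0 : E N) ρ) (x - y)) := by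
          refine setIntegral_congr_fun measurableSet_ball fun y hy => ?_
          have : x - y ∉ ball (0 : E N) ρ := by
            rw [mem_ball_zero_iff, not_lt]
            exact ha y hy
          show hk 1 y = hk 1 y * (1 - chi (ball (0 : E N) ρ) (x - y))
          rw [chi_notMem this]
          ring
      _ ≤ _ := setIntegral_le_integral hint (Eventually.of_forall fun y =>
          mul_nonneg (hk_nonneg zero_le_one y) (hg0 _))
  rcases le_total (inner ℝ x e) 0 with hx | hx
  · refine (min_le_left _ _).trans (key _ fun y hy => ?_)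
    have h1 : ‖y - (2 * ρ) • e‖ < ρ := by rwa [mem_ball_iff_norm] at hy
    have h2 : |inner ℝ (y - (2 * ρ) • e) e| ≤ ‖y - (2 * ρ) • e‖ := by
      have := abs_real_inner_le_norm (y - (2 * ρ) • e) e
      rwa [he, mul_one] at this
    have h3 : inner ℝ (y - (2 * ρ) • e) e = inner ℝ y e - 2 * ρ := by
      rw [inner_sub_left, real_inner_smul_left, real_inner_self_eq_norm_sq, he]
      ring
    have h4 : inner ℝ (x - y) e = inner ℝ x e - inner ℝ y e := inner_sub_left _ _ _
    have h5 : |inner ℝ (x - y) e| ≤ ‖x - y‖ := by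
      have := abs_real_inner_le_norm (x - y) e
      rwa [he, mul_one] at this
    rw [h3] at h2
    have h6 := neg_abs_le (inner ℝ y e - 2 * ρ)
    have h7 := neg_abs_le (inner ℝ (x - y) e)
    linarith
  · refine (min_le_right _ _).trans (key _ fun y hy => ?_)
    have h1 : ‖y - -((2 * ρ) • e)‖ < ρ := by rwa [mem_ball_iff_norm] at hy
    have h2 : |inner ℝ (y - -((2 * ρ) • e)) e| ≤ ‖y - -((2 * ρ) • e)‖ := by
      have := abs_real_inner_le_norm (y - -((2 * ρ) • e)) e
      rwa [he, mul_one] at this
    have h3 : inner ℝ (y - -((2 * ρ) • e)) e = inner ℝ y e + 2 * ρ := by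
      rw [sub_neg_eq_add, inner_add_left, real_inner_smul_left, real_inner_self_eq_norm_sq, he]
      ring
    have h4 : inner ℝ (x - y) e = inner ℝ x e - inner ℝ y e := inner_sub_left _ _ _
    have h5 : |inner ℝ (x - y) e| ≤ ‖x - y‖ := by
      have := abs_real_inner_le_norm (x - y) e
      rwa [he, mul_one] at this
    rw [h3] at h2
    have h6 := le_abs_self (inner ℝ y e + 2 * ρ)
    have h7 := le_abs_self (inner ℝ (x - y) e)
    linarith

/-- Duhamel's formula for `w - θ` -/
theorem duh_sub_const {f : ℝ → ℝ} {a s r θ : ℝ} {w : ℝ → E N → ℝ} (hw : Mild f a w)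
    (has : a ≤ s) (hsr : s < r) (x : E N) :
    w r x - θ = P (r - s) (fun y => w s y - θ) x + ∫ q in s..r, P (r - q) (fun y => f (w q y)) x := by
  obtain ⟨M, hM⟩ := hw.bdd
  have h1 := hw.duh s r has hsr x
  have h2 : P (r - s) (fun y => w s y - θ) x = P (r - s) (w s) x - P (r - s) (fun _ => θ) x :=
    P_sub x (integrable_hk_mul (by linarith) (mild_meas hw has).aestronglyMeasurable (hM s has) x)
      (integrable_hk_mul (by linarith) aestronglyMeasurable_const (C := |θ|) (fun _ => le_rfl) x)
  rw [h2, P_const (by linarith), h1]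
  ring

theorem te1 (hSOLM : T_SOLM) (hSH : T_SH) (hGC : T_GC) : T_TE1 := by
  intro N f K ρ hN hf hL hρ hinv
  obtain ⟨v, hv, hlim⟩ := hinv
  have hS := hSOLM N f K _ v hL measurableSet_ball hv
  set w := lift0 (ball (0 : E N) ρ) v with hwdef
  have hw : Mild f 0 w := hS.mild
  have hR : Rng 0 w := hS.rng
  obtain ⟨c0, hc0, hP⟩ := P_out (N := N) hN hρ
  have hK := hL.K0
  have hw0 : w 0 = chi (ball (0 : E N) ρ) := lift0_nonpos le_rfl
  have hsub : ∀ {s t : ℝ}, 0 ≤ s → Ioc s t ×ˢ (univ : Set (E N)) ⊆ Ioi 0 ×ˢ univ := fun {s t} hs =>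
    prod_mono (fun r hr => by
      have := hr.1
      show 0 < r
      linarith) (subset_refl _)
  have hfw : ∀ r ≥ 0, ∀ x, |f (w r x)| ≤ K := by
    intro r hr x
    refine (hL.abs_le _).trans ?_
    rw [abs_of_nonneg (hR r hr x).1]
    exact mul_le_of_le_one_right hK.le (hR r hr x).2
  -- step 1
  have hm : ∀ x, w 1 x ≤ 1 - Real.exp (-K) * c0 := by
    intro x
    have key := hSH N K (1 + K) 0 1 (fun r x => 1 - w r x) (fun r x => -f (w r x)) one_pos
      (measurable_const.sub hw.meas)
      (fun r hr x => by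
        rw [abs_of_nonneg (by linarith [(hR r hr.1 x).2])]
        linarith [(hR r hr.1 x).1])
      (fun r hr x => by
        rw [abs_neg]
        linarith [hfw r hr.1 x])
      (continuousOn_const.sub (hw.cont.mono (hsub le_rfl)))
      (((mild_comp_cont hL hw).mono (hsub le_rfl)).neg) ?_ 1 ⟨one_pos, le_rfl⟩ x
    · have h1 : 0 ≤ ∫ q in (0 : ℝ)..1, Real.exp (-(K * (1 - q))) *
          P (1 - q) (fun y => -f (w q y) + K * (1 - w q y)) x := by
        refine intervalIntegral.integral_nonneg zero_le_one fun q hq => ?_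
        refine mul_nonneg (Real.exp_pos _).le (P_nonneg (by linarith [hq.2]) (fun y => ?_) x)
        have h2 := hL.lip (w q y) 1
        have h5 : w q y - 1 ≤ 0 := by linarith [(hR q hq.1 y).2]
        rw [hL.f1, sub_zero, abs_of_nonpos h5] at h2
        linarith [le_abs_self (f (w q y))]
      have h3 := hP x
      simp only [sub_zero, mul_one] at key
      rw [hw0] at key
      have h4 : Real.exp (-K) * c0 ≤ Real.exp (-K) * P 1 (fun y => 1 - chi (ball (0 : E N) ρ) y) x :=
        mul_le_mul_of_nonneg_left h3 (Real.exp_pos _).le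
      linarith
    · intro r hr x
      have h1 := duh_sub_const (θ := 1) hw le_rfl hr.1 x
      have h2 : P (r - 0) (fun y => 1 - w 0 y) x = -P (r - 0) (fun y => w 0 y - 1) x := by
        rw [← neg_one_mul, ← Pool.Agent.H29.TF.P_const_mul]
        congr 1
        funext y
        ring
      have h3 : ∫ q in (0 : ℝ)..r, P (r - q) (fun y => -f (w q y)) x =
          -∫ q in (0 : ℝ)..r, P (r - q) (fun y => f (w q y)) x := by
        rw [← intervalIntegral.integral_neg]
        congr 1
        funext q
        rw [← neg_one_mul, ← Pool.Agent.H29.TF.P_const_mul]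
        congr 1
        funext y
        ring
      show 1 - w r x = P (r - 0) (fun y => 1 - w 0 y) x + _
      rw [h2, h3]
      linarith
  -- step 2
  refine ⟨min 1 (Real.exp (-K) * c0), lt_min one_pos (by positivity), min_le_left _ _,
    fun θ hθ => ?_⟩
  have hθ1 : 1 - Real.exp (-K) * c0 < θ := by
    have := min_le_right 1 (Real.exp (-K) * c0)
    linarith [hθ.1]
  have hθ0 : 0 < θ := by
    have := min_le_left 1 (Real.exp (-K) * c0)
    linarith [hθ.1]
  by_contra hneg
  rw [not_lt] at hneg
  have hle : ∀ t > 1, w t 0 ≤ θ := by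
    intro t ht
    have key := hGC N K K (1 + K) 1 t (fun r x => w r x - θ) (fun r x => f (w r x)) hK.le ht
      ((mild_meas hw zero_le_one).sub measurable_const)
      (fun r hr x => by
        have h1 := hR r (by linarith [hr.1]) x
        rw [abs_le]
        constructor <;> linarith [hθ.2])
      (fun r hr x => by linarith [hfw r (by linarith [hr.1]) x])
      ((hw.cont.mono (hsub zero_le_one)).sub continuousOn_const)
      ((mild_comp_cont hL hw).mono (hsub zero_le_one))
      (fun r hr x => duh_sub_const hw zero_le_one hr.1 x)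
      (fun r hr x hz => by
        have h1 := hL.lip (w r x) θ
        have h2 : 0 < w r x - θ := hz
        rw [abs_of_pos h2] at h1
        have h3 := le_abs_self (f (w r x) - f θ)
        show f (w r x) ≤ K * (w r x - θ)
        linarith)
      (fun r hr x hz => by
        have h1 := hL.lip (w r x) θ
        have h2 : w r x - θ ≤ 0 := hz
        rw [abs_of_nonpos h2] at h1
        have h3 := le_abs_self (f (w r x) - f θ)
        show f (w r x) ≤ -(K * (w r x - θ))
        linarith) 0
    have h1 : (fun y => max (w 1 y - θ) 0) = fun _ : E N => (0 : ℝ) := by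
      funext y
      exact max_eq_right (by linarith [hm y])
    simp only [h1] at key
    rw [P_const (by linarith), mul_zero] at key
    linarith
  have h1 := (hlim 1 one_pos).tendsto_at (mem_closedBall_self zero_le_one)
  have h2 : ∀ᶠ t : ℝ in atTop, v t 0 ≤ θ := by
    filter_upwards [eventually_gt_atTop (1 : ℝ)] with t ht
    have := hle t ht
    rwa [hwdef, lift0_pos (by linarith)] at this
  have h3 := le_of_tendsto h1 h2
  linarith [hθ.2]

end Pool.Agent.H65.RF
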